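import Pool.Agent.Q11.LM.Stm

/-!
# Assembly of the project LM from the statements
-/

namespace Pool.Agent.Q11.LM

open Filter Topology

universe u

/-- a connected subset of the range of an embedding of a group with trivial identity component has
at most one point -/
theorem subsing_of_range {G K : Type u} [Group G] [TopologicalSpace G] [IsTopologicalGroup G]
    [Group K] [TopologicalSpace K] (ι : G →* K) (he : IsEmbedding ι)
    (hcc : connectedComponent (1 : G) = {1}) (S : Set K) (hS : S ⊆ Set.range ι)
    (hpre : IsPreconnected S) : S.Subsingleton := by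
  have h1 : ι '' (ι ⁻¹' S) = S := Set.image_preimage_eq_of_subset hS
  have h2 : IsPreconnected (ι ⁻¹' S) := by
    rw [← he.isInducing.isPreconnected_image, h1]
    exact hpre
  intro x hx y hy
  obtain ⟨a, rfl⟩ := hS hx
  obtain ⟨b, rfl⟩ := hS hy
  have h3 : IsPreconnected ((fun g => a⁻¹ * g) '' (ι ⁻¹' S)) :=
    h2.image _ (continuous_const_mul a⁻¹).continuousOn
  have h4 : (1 : G) ∈ (fun g => a⁻¹ * g) '' (ι ⁻¹' S) := ⟨a, hx, inv_mul_cancel a⟩
  have h5 : a⁻¹ * b ∈ (fun g => a⁻¹ * g) '' (ι ⁻¹' S) := ⟨b, hy, rfl⟩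
  have h6 := h3.subset_connectedComponent h4 h5
  rw [hcc] at h6
  have h7 : a⁻¹ * b = 1 := h6
  rw [inv_mul_eq_one] at h7
  rw [h7]

theorem main (hNIL : S_NIL.{u}) (hCEN : S_CEN.{u}) (hESS : S_ESS.{u}) (hSQC : S_SQC.{u})
    (hFCT : S_FCT.{u}) (hFIN : S_FIN.{u}) (hINF : S_INF.{u})
    (G K : Type u) [Group G] [TopologicalSpace G] [IsTopologicalGroup G]
    [Group K] [TopologicalSpace K] [IsTopologicalGroup K] [CompactSpace K] [T2Space K]
    (ι : G →* K) (he : IsEmbedding ι) (hd : DenseRange ι) (hn : Group.IsNilpotent G)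
    (hsc : SeqComplete G) (hlm : LocMin G) (hcc : connectedComponent (1 : G) = {1}) :
    connectedComponent (1 : K) = {1} := by
  have hnK : Group.IsNilpotent K := hNIL G K ι hd hn
  have hcen := hCEN K hnK
  let C : Subgroup K := Subgroup.connectedComponentOfOne K
  have hCset : (C : Set K) = connectedComponent (1 : K) := rfl
  have hCcl : IsClosed (C : Set K) := isClosed_connectedComponent
  let _ : CommGroup C := { (inferInstance : Group C) with
    mul_comm := fun a b => Subtype.ext (hcen a.1 a.2 b.1) }
  have : CompactSpace C := isCompact_iff_compactSpace.mp hCcl.isCompact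
  have : ConnectedSpace C := isConnected_iff_connectedSpace.mp isConnected_connectedComponent
  have : IsTopologicalGroup C := inferInstance
  obtain ⟨V, hVo, hV1, hV⟩ := hESS G K ι he hd hlm
  have hctb : Countable (C →ₜ* Circle) := by
    refine hINF C (ι.range.comap C.subtype) ?_ ?_ ?_
    · intro x k hx hxk
      have h1 : ∀ n, ∃ g, ι g = (x n : K) := fun n => hx n
      choose g hg using h1
      have h2 : Tendsto (fun n => ι (g n)) atTop (𝓝 (k : K)) := by
        have h3 : Tendsto (fun n => (x n : K)) atTop (𝓝 (k : K)) :=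
          (continuous_subtype_val.tendsto k).comp hxk
        simpa only [hg] using h3
      obtain ⟨a, ha⟩ := hSQC G K ι he hsc g k h2
      exact ⟨a, ha⟩
    · intro S hS hpre
      have h1 : (Subtype.val '' S : Set K).Subsingleton := by
        refine subsing_of_range ι he hcc _ ?_ (hpre.image _ continuous_subtype_val.continuousOn)
        rintro _ ⟨s, hs, rfl⟩
        obtain ⟨g, hg⟩ := hS hs
        exact ⟨g, hg⟩
      intro x hx y hy
      exact Subtype.ext (h1 ⟨x, hx, rfl⟩ ⟨y, hy, rfl⟩)
    · refine ⟨Subtype.val ⁻¹' V, hVo.preimage continuous_subtype_val, hV1, ?_⟩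
      intro N hNcl hNV hNH
      have h1 : N.map C.subtype = ⊥ := by
        refine hV (N.map C.subtype) ?_ ?_ ?_ ?_
        · refine ⟨?_⟩
          rintro _ ⟨n, hn, rfl⟩ k
          refine ⟨n, hn, ?_⟩
          have h2 := hcen n.1 n.2 k
          show (n : K) = k * n * k⁻¹
          rw [← h2, mul_inv_cancel_right]
        · have h2 : ((N.map C.subtype : Subgroup K) : Set K) = Subtype.val '' (N : Set C) := rfl
          rw [h2]
          exact hCcl.isClosedEmbedding_subtypeVal.isClosedMap _ hNcl
        · rintro _ ⟨n, hn, rfl⟩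
          exact hNV hn
        · rintro g ⟨n, hn, hng⟩
          have h2 : n ∈ N ⊓ ι.range.comap C.subtype := ⟨hn, g, hng.symm⟩
          rw [hNH] at h2
          have h3 : n = 1 := h2
          rw [h3, map_one] at hng
          exact he.injective (by rw [← hng, map_one])
      rw [Subgroup.map_eq_bot_iff_of_injective _ C.subtype_injective] at h1
      exact h1
  have hfc : FirstCountableTopology (connectedComponent (1 : K)) := by
    refine hFCT C (C →ₜ* Circle) (fun χ x => χ x) (fun χ => χ.continuous_toFun) ?_
    intro x y hxy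
    by_contra hne
    have h1 : x * y⁻¹ ≠ 1 := fun h => hne (mul_inv_eq_one.mp h)
    obtain ⟨χ, hχ, hχ1⟩ := Pool.Agent.TH264.Bridge.char_sep_mul C (x * y⁻¹) h1
    refine hχ1 ?_
    have h2 : χ x = χ y := hxy ⟨χ, hχ⟩
    rw [map_mul, map_inv, h2, mul_inv_cancel]
  have hsub : connectedComponent (1 : K) ⊆ (ι.range : Set K) := by
    refine hFIN K ι.range ?_ ?_ hcen hfc
    · exact hd
    · intro x k hx hxk
      choose g hg using hx
      have h2 : Tendsto (fun n => ι (g n)) atTop (𝓝 (k : K)) := by
        simpa only [hg] using hxk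
      obtain ⟨a, ha⟩ := hSQC G K ι he hsc g k h2
      exact ⟨a, ha⟩
  have h8 := subsing_of_range ι he hcc (connectedComponent (1 : K)) hsub isPreconnected_connectedComponent
  refine Set.Subset.antisymm ?_ ?_
  · intro x hx
    exact h8 hx mem_connectedComponent
  · rintro x rfl
    exact mem_connectedComponent

end Pool.Agent.Q11.LM
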