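import Pool.Agent.Q11.LM.Stm

/-!
# Local essentiality
-/

namespace Pool.Agent.Q11.LM

open Filter Topology
open scoped Pointwise

universe u

theorem t_ESS : S_ESS.{u} := by
  intro G K _ τ _ _ _ _ _ ι he hd hlm
  obtain ⟨U, hU, hmin⟩ := hlm
  rw [he.isInducing.nhds_eq_comap, map_one, Filter.mem_comap] at hU
  obtain ⟨W, hW, hWU⟩ := hU
  obtain ⟨V, hVo, hV1, hVW⟩ := exists_open_nhds_one_mul_subset hW
  refine ⟨V, hVo, hV1, ?_⟩
  intro N hN hNcl hNV hNι
  have hNc : IsClosed (N : Set K) := hNcl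
  let f : G →* K ⧸ N := (QuotientGroup.mk' N).comp ι
  have hf : ∀ g, f g = (QuotientGroup.mk (ι g) : K ⧸ N) := fun g => rfl
  have hfc : @Continuous G (K ⧸ N) τ _ f := continuous_quotient_mk'.comp he.continuous
  have hfi : Function.Injective f := by
    rw [injective_iff_map_eq_one]
    intro g hg
    rw [hf, QuotientGroup.eq_one_iff] at hg
    exact hNι g hg
  have hT2 : T2Space (K ⧸ N) := inferInstance
  have hσ : TopologicalSpace.induced f inferInstance = τ := by
    refine hmin (TopologicalSpace.induced f inferInstance) (topologicalGroup_induced f) ?_ ?_ ?_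
    · exact @T2Space.of_injective_continuous G (K ⧸ N) (TopologicalSpace.induced f inferInstance)
        _ _ f hfi continuous_induced_dom
    · exact continuous_iff_le_induced.mp hfc
    · rw [nhds_induced, map_one, Filter.mem_comap]
      refine ⟨(QuotientGroup.mk : K → K ⧸ N) '' V, ?_, ?_⟩
      · refine (QuotientGroup.isOpenMap_coe V hVo).mem_nhds ⟨1, hV1, rfl⟩
      · rintro g ⟨v, hv, hvg⟩
        rw [hf] at hvg
        have h1 : v⁻¹ * ι g ∈ N := QuotientGroup.eq.mp hvg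
        refine hWU (hVW ?_)
        exact Set.mem_mul.mpr ⟨v, hv, v⁻¹ * ι g, hNV h1, mul_inv_cancel_left v (ι g)⟩
  by_contra hne
  obtain ⟨x, hxN, hx1⟩ : ∃ x ∈ N, x ≠ 1 := by
    by_contra hcon
    push Not at hcon
    exact hne (by
      rw [eq_bot_iff]
      intro x hx
      exact hcon x hx)
  obtain ⟨P, Q, hP, hQ, hxP, h1Q, hd2⟩ := t2_separation hx1
  have hO : ι ⁻¹' Q ∈ 𝓝 (1 : G) :=
    (hQ.preimage he.continuous).mem_nhds (by show ι 1 ∈ Q; rw [map_one]; exact h1Q)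
  have hO' : ι ⁻¹' Q ∈ @nhds G (TopologicalSpace.induced f inferInstance) 1 := by
    rw [hσ]
    exact hO
  rw [nhds_induced, map_one, Filter.mem_comap] at hO'
  obtain ⟨S, hS, hSO⟩ := hO'
  have hx2 : (QuotientGroup.mk (x : K) : K ⧸ N) = 1 := (QuotientGroup.eq_one_iff _).mpr hxN
  have h3 : (QuotientGroup.mk : K → K ⧸ N) ⁻¹' S ∈ 𝓝 (x : K) := by
    have h4 : Tendsto (QuotientGroup.mk : K → K ⧸ N) (𝓝 (x : K)) (𝓝 1) := by
      have h5 := (continuous_quotient_mk' (s := QuotientGroup.leftRel N)).tendsto (x : K)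
      have h6 : (QuotientGroup.mk (x : K) : K ⧸ N) = 1 := hx2
      rw [← h6]
      exact h5
    exact h4 hS
  obtain ⟨z, hz1, hz2⟩ : ∃ g, ι g ∈ (QuotientGroup.mk : K → K ⧸ N) ⁻¹' S ∩ P := by
    have h5 := mem_closure_iff_nhds.mp (hd (x : K)) _ (Filter.inter_mem h3 (hP.mem_nhds hxP))
    obtain ⟨w, hw1, g, rfl⟩ := h5
    exact ⟨g, hw1⟩
  exact Set.disjoint_left.mp hd2 hz2 (hSO hz1)

end Pool.Agent.Q11.LM
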