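import Pool.Agent.Q11.LM.Small

/-!
# The final step
-/

namespace Pool.Agent.Q11.LM

open Filter Topology

universe u

theorem t_FIN : S_DIV.{u} → S_SEQ.{u} → S_ONS.{u} → S_FIN.{u} := by
  intro hDIV hSEQ hONS K _ _ _ _ _ G hG hseq hcen hfc
  classical
  set C : Subgroup K := Subgroup.connectedComponentOfOne K with hC
  have hCset : (C : Set K) = connectedComponent (1 : K) := rfl
  have hCcl : IsClosed (C : Set K) := isClosed_connectedComponent
  -- the intersection is closed
  have hHcl : IsClosed ((C : Set K) ∩ G) := by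
    have hfc' : FirstCountableTopology C := hfc
    have h1 : IsClosed {x : C | (x : K) ∈ G} := by
      rw [← isSeqClosed_iff_isClosed]
      intro x k hx hxk
      exact hseq (fun n => (x n : K)) k hx ((continuous_subtype_val.tendsto k).comp hxk)
    have h2 : ((C : Set K) ∩ G) = Subtype.val '' {x : C | (x : K) ∈ G} := by
      ext x
      constructor
      · rintro ⟨hx1, hx2⟩
        exact ⟨⟨x, hx1⟩, hx2, rfl⟩
      · rintro ⟨y, hy, rfl⟩
        exact ⟨y.2, hy⟩
    rw [h2]
    exact hCcl.isClosedEmbedding_subtypeVal.isClosedMap _ h1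
  have claim : ∀ W : Set K, IsOpen W → (C : Set K) ∩ G ⊆ W →
      ∃ n : ℕ, ∀ g ∈ G, g ^ n.factorial ∈ W := by
    intro W hW hHW
    by_contra hcon
    push Not at hcon
    choose g hg hgW using hcon
    obtain ⟨c, hc, φ, hφ, hlim⟩ := hSEQ K (connectedComponent (1 : K)) hCcl hfc
      (fun n => g n ^ n.factorial) (by
        intro W' hW' hCW'
        obtain ⟨U, hUn, hUo, hUW⟩ := hONS K W' hW' hCW'
        have hfin : Finite (K ⧸ U) := Subgroup.quotient_finite_of_isOpen U hUo
        have hfi : U.FiniteIndex := Subgroup.finiteIndex_of_finite_quotient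
        filter_upwards [Filter.eventually_ge_atTop U.index] with n hn
        refine hUW ?_
        obtain ⟨c, hc⟩ := Nat.dvd_factorial (Nat.pos_of_ne_zero hfi.index_ne_zero) hn
        show g n ^ n.factorial ∈ U
        rw [hc, pow_mul]
        exact U.pow_mem (U.pow_index_mem (g n)) c)
    have h1 : c ∈ G := hseq _ c (fun k => G.pow_mem (hg (φ k)) _) hlim
    have h2 : c ∈ W := hHW ⟨hc, h1⟩
    obtain ⟨k, hk⟩ := (hlim.eventually (hW.mem_nhds h2)).exists
    exact hgW (φ k) hk
  intro c hc
  by_contra hcG
  have hcH : c ∉ (C : Set K) ∩ G := fun h => hcG h.2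
  obtain ⟨W, V, hWo, hVo, hHW, hcV, hdisj⟩ := SeparatedNhds.of_isCompact_isClosed
    hHcl.isCompact (isClosed_singleton (x := c)) (Set.disjoint_singleton_right.mpr hcH)
  obtain ⟨n, hn⟩ := claim W hWo hHW
  have hall : ∀ x : K, x ^ n.factorial ∈ closure W := by
    intro x
    have h1 : IsClosed {x : K | x ^ n.factorial ∈ closure W} :=
      isClosed_closure.preimage (continuous_pow n.factorial)
    have h2 : closure (G : Set K) ⊆ {x : K | x ^ n.factorial ∈ closure W} := by
      refine closure_minimal ?_ h1
      intro g hg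
      exact subset_closure (hn g hg)
    exact h2 (hG x)
  have hdiv : ∃ b : K, b ^ n.factorial = c := by
    let _ : CommGroup C := { (inferInstance : Group C) with
      mul_comm := fun a b => Subtype.ext (hcen a.1 a.2 b.1) }
    have : CompactSpace C := isCompact_iff_compactSpace.mp hCcl.isCompact
    have : ConnectedSpace C := isConnected_iff_connectedSpace.mp isConnected_connectedComponent
    have : IsTopologicalGroup C := inferInstance
    obtain ⟨b, hb⟩ := hDIV C n.factorial (Nat.factorial_ne_zero n) ⟨c, hc⟩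
    exact ⟨b, congrArg Subtype.val hb⟩
  obtain ⟨b, hb⟩ := hdiv
  have h1 := hall b
  rw [hb] at h1
  have h2 : c ∈ V := hcV rfl
  obtain ⟨z, hzV, hzW⟩ := mem_closure_iff.mp h1 V hVo h2
  exact Set.disjoint_left.mp hdisj hzW hzV

end Pool.Agent.Q11.LM
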