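import Pool.Agent.Q11.LM.Stm

/-!
# The infinite rank case
-/

namespace Pool.Agent.Q11.LM

open Filter Topology

universe u

/-- a character separating a point from a finite set of characters; compactness -/
theorem exists_finite_ker {C : Type u} [CommGroup C] [TopologicalSpace C] [IsTopologicalGroup C]
    [CompactSpace C] [T2Space C] (V : Set C) (hV : IsOpen V) (h1 : (1 : C) ∈ V) :
    ∃ F : Finset (C →ₜ* Circle), ∀ x : C, (∀ χ ∈ F, χ x = 1) → x ∈ V := by
  classical
  have hc : IsCompact Vᶜ := hV.isClosed_compl.isCompact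
  have h2 : ∀ x ∈ Vᶜ, ∃ χ : C →ₜ* Circle, χ x ≠ 1 := by
    intro x hx
    have hx1 : x ≠ 1 := by
      rintro rfl
      exact hx h1
    obtain ⟨χ, hχ, hχ1⟩ := Pool.Agent.TH264.Bridge.char_sep_mul C x hx1
    exact ⟨⟨χ, hχ⟩, hχ1⟩
  obtain ⟨F, hF⟩ := hc.elim_finite_subcover (fun χ : C →ₜ* Circle => {x : C | χ x ≠ 1})
    (fun χ => isOpen_ne_fun χ.continuous_toFun continuous_const)
    (fun x hx => by
      obtain ⟨χ, hχ⟩ := h2 x hx
      exact Set.mem_iUnion.mpr ⟨χ, hχ⟩)
  refine ⟨F, fun x hx => ?_⟩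
  by_contra hxV
  have h3 := hF hxV
  simp only [Set.mem_iUnion, Set.mem_ofPred_eq] at h3
  obtain ⟨χ, hχF, hχ⟩ := h3
  exact hχ (hx χ hχF)

/-- evaluation of characters -/
noncomputable def ev {C : Type u} [CommGroup C] [TopologicalSpace C] [IsTopologicalGroup C] (x : C) :
    (C →ₜ* Circle) →* Circle where
  toFun χ := χ x
  map_one' := rfl
  map_mul' _ _ := rfl

theorem ev_apply {C : Type u} [CommGroup C] [TopologicalSpace C] [IsTopologicalGroup C] (x : C)
    (χ : C →ₜ* Circle) : ev x χ = χ x := rfl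

theorem roots_finite (n : ℕ) (hn : n ≠ 0) : ({z : Circle | z ^ n = 1} : Set Circle).Finite := by
  have h3 : ({z : ℂ | z ^ n = 1} : Set ℂ).Finite := by
    have h4 : {z : ℂ | z ^ n = 1} ⊆
        ((Polynomial.X ^ n - Polynomial.C (1 : ℂ)).roots.toFinset : Set ℂ) := by
      intro z hz
      have hz' : z ^ n = 1 := hz
      simp only [Finset.mem_coe, Multiset.mem_toFinset]
      rw [Polynomial.mem_roots (Polynomial.X_pow_sub_C_ne_zero (Nat.pos_of_ne_zero hn) (1 : ℂ))]
      simp [hz']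
    exact (Finset.finite_toSet _).subset h4
  refine Set.Finite.of_finite_image (f := fun z : Circle => (z : ℂ)) (h3.subset ?_)
    (Circle.coe_injective.injOn)
  rintro _ ⟨z, hz, rfl⟩
  have hz' : z ^ n = 1 := hz
  show (z : ℂ) ^ n = 1
  rw [← Circle.coe_pow, hz', Circle.coe_one]

/-- the group of characters of a connected group is torsion-free -/
theorem char_torsionfree {C : Type u} [CommGroup C] [TopologicalSpace C] [IsTopologicalGroup C]
    [ConnectedSpace C] (n : ℕ) (χ : C →ₜ* Circle) (hn : n ≠ 0) (h : χ ^ n = 1) : χ = 1 := by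
  have h1 : ∀ x, (χ x) ^ n = 1 := by
    intro x
    have h2 := congrArg (ev x) h
    rw [map_pow, map_one] at h2
    exact h2
  have hfin : (Set.range χ).Finite :=
    (roots_finite n hn).subset (by rintro _ ⟨x, rfl⟩; exact h1 x)
  have hpre : IsPreconnected (Set.range χ) := isPreconnected_range χ.continuous_toFun
  have hsub : (Set.range χ).Subsingleton := by
    by_contra hcon
    rw [Set.not_subsingleton_iff] at hcon
    exact hpre.infinite_of_nontrivial hcon hfin
  refine DFunLike.ext _ _ (fun x => ?_)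
  have h3 := hsub ⟨x, rfl⟩ ⟨1, rfl⟩
  rw [h3, map_one]
  rfl

theorem t_INF : S_FCT.{u} → S_FCH.{u} → S_RNK.{u} → S_SEPD.{u} → S_INF.{u} := by
  intro hFCT hFCH hRNK hSEPD C _ _ _ _ _ _ H hseq htd hess
  classical
  obtain ⟨V, hVo, hV1, hV⟩ := hess
  obtain ⟨F, hF⟩ := exists_finite_ker V hVo hV1
  rcases hRNK (Additive (C →ₜ* Circle)) (fun n a hn ha => by
    have h1 : (Additive.toMul a) ^ n = 1 := ha
    exact congrArg Additive.ofMul (char_torsionfree n (Additive.toMul a) hn h1))
    (F.image Additive.ofMul) with h | ⟨L, hLF, hL⟩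
  · exact h
  exfalso
  -- the homomorphism on characters
  let l : (C →ₜ* Circle) → (ℕ →₀ ℚ) := fun χ => L (Additive.ofMul χ)
  have hl1 : l 1 = 0 := L.map_zero
  have hlm : ∀ χ ψ, l (χ * ψ) = l χ + l ψ := fun χ ψ => L.map_add _ _
  have hli : ∀ χ, l χ⁻¹ = - l χ := fun χ => L.map_neg _
  have hlp : ∀ χ (n : ℤ), l (χ ^ n) = n • l χ := fun χ n => L.map_zsmul _ _
  -- annihilators
  let An : (AddSubgroup (ℕ →₀ ℚ)) → Subgroup C := fun B =>
    { carrier := {x | ∀ χ, l χ ∈ B → χ x = 1}
      one_mem' := fun χ _ => map_one χ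
      mul_mem' := fun {a b} ha hb χ hχ => by rw [map_mul, ha χ hχ, hb χ hχ, mul_one]
      inv_mem' := fun {a} ha χ hχ => by rw [map_inv, ha χ hχ, inv_one] }
  have hAnmem : ∀ B x, x ∈ An B ↔ ∀ χ, l χ ∈ B → χ x = 1 := fun B x => Iff.rfl
  have hAncl : ∀ B, IsClosed (An B : Set C) := by
    intro B
    have h1 : (An B : Set C) = ⋂ χ : {χ : C →ₜ* Circle // l χ ∈ B}, {x | χ.1 x = 1} := by
      ext x
      simp only [Set.mem_iInter, Set.mem_ofPred_eq, Subtype.forall]
      exact Iff.rfl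
    rw [h1]
    exact isClosed_iInter (fun χ => isClosed_eq χ.1.continuous_toFun continuous_const)
  have hAnV : ∀ B, (An B : Set C) ⊆ V := by
    intro B x hx
    refine hF x (fun χ hχ => hx χ ?_)
    have h1 : l χ = 0 := hLF _ (Finset.mem_image_of_mem _ hχ)
    rw [h1]
    exact B.zero_mem
  -- the metrizable subgroup
  let M : Subgroup C := An ⊥
  have hMc : CompactSpace M := isCompact_iff_compactSpace.mp (hAncl ⊥).isCompact
  have hMfc : FirstCountableTopology M := by
    have hsec : ∀ r : Set.range l, ∃ χ, l χ = r.1 := fun r => r.2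
    choose s hs using hsec
    have hct : Countable (ULift.{u} (Set.range l)) := by
      have : Countable (Set.range l) := inferInstance
      infer_instance
    refine hFCT M (ULift.{u} (Set.range l)) (fun r x => s r.down x.1) ?_ ?_
    · intro r
      exact (s r.down).continuous_toFun.comp continuous_subtype_val
    · intro x y hxy
      by_contra hne
      have h1 : (x * y⁻¹ : C) ≠ 1 := fun h => hne (Subtype.ext (mul_inv_eq_one.mp h))
      obtain ⟨χ0, hχ0, hχ1⟩ := Pool.Agent.TH264.Bridge.char_sep_mul C _ h1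
      refine hχ1 ?_
      let χ : C →ₜ* Circle := ⟨χ0, hχ0⟩
      let r : Set.range l := ⟨l χ, χ, rfl⟩
      have h2 : l (χ * (s r)⁻¹) ∈ (⊥ : AddSubgroup (ℕ →₀ ℚ)) := by
        rw [hlm, hli, hs, AddSubgroup.mem_bot]
        exact add_neg_cancel (l χ)
      have h3 : (χ * (s r)⁻¹) ((x : C) * (y : C)⁻¹) = 1 :=
        (x * y⁻¹).2 _ h2
      have h4 : s r (x : C) = s r (y : C) := hxy (ULift.up r)
      have h5 : χ ((x : C) * (y : C)⁻¹) * (s r ((x : C) * (y : C)⁻¹))⁻¹ = 1 := h3
      rw [map_mul (s r), map_inv (s r), h4, mul_inv_cancel, inv_one, mul_one] at h5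
      exact h5
  -- the closed subgroup of H
  have hHcl : IsClosed ((H ⊓ M : Subgroup C) : Set C) := by
    have h1 : IsClosed {x : M | (x : C) ∈ H} := by
      rw [← isSeqClosed_iff_isClosed]
      intro x k hx hxk
      exact hseq (fun n => (x n : C)) k hx ((continuous_subtype_val.tendsto k).comp hxk)
    have h2 : ((H ⊓ M : Subgroup C) : Set C) = Subtype.val '' {x : M | (x : C) ∈ H} := by
      ext x
      constructor
      · rintro ⟨hx1, hx2⟩
        exact ⟨⟨x, hx2⟩, hx1, rfl⟩
      · rintro ⟨y, hy, rfl⟩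
        exact ⟨hy, y.2⟩
    rw [h2]
    exact (hAncl ⊥).isClosedEmbedding_subtypeVal.isClosedMap _ h1
  let H' : Subgroup C := H ⊓ M
  have hH'c : CompactSpace H' := isCompact_iff_compactSpace.mp hHcl.isCompact
  have hH'td : TotallyDisconnectedSpace H' := by
    refine ⟨fun S _ hS => ?_⟩
    have h1 : (Subtype.val '' S : Set C).Subsingleton := by
      refine htd _ ?_ (hS.image _ continuous_subtype_val.continuousOn)
      rintro _ ⟨s, _, rfl⟩
      exact s.2.1
    intro x hx y hy
    exact Subtype.ext (h1 ⟨x, hx, rfl⟩ ⟨y, hy, rfl⟩)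
  choose ψ0 hψ0 using hL
  let ψ : ℕ → (C →ₜ* Circle) := fun n => Additive.toMul (ψ0 n)
  have hψ : ∀ n, l (ψ n) = Finsupp.single n 1 := hψ0
  have hord : ∀ n, ∃ m : ℕ, 0 < m ∧ ∀ x ∈ H', (ψ n x) ^ m = 1 := by
    intro n
    obtain ⟨m, hm, hm2⟩ := hFCH H' ((ψ n).toMonoidHom.comp H'.subtype)
      ((ψ n).continuous_toFun.comp continuous_subtype_val)
    exact ⟨m, hm, fun x hx => hm2 ⟨x, hx⟩⟩
  choose m hm hmH using hord
  let μ : (ℕ →₀ ℚ) →ₗ[ℚ] ℚ := Finsupp.linearCombination ℚ
    (fun n => 1 / ((n.factorial : ℚ) * (m n : ℚ)))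
  have hμ : ∀ n, μ (Finsupp.single n 1) = 1 / ((n.factorial : ℚ) * (m n : ℚ)) := by
    intro n
    simp only [μ, Finsupp.linearCombination_single, one_smul]
  let N : Subgroup C := An (AddMonoidHom.ker μ.toAddMonoidHom)
  have hNM : N ≤ M := by
    intro x hx χ hχ
    refine hx χ ?_
    have h1 : l χ = 0 := hχ
    rw [h1]
    exact AddSubgroup.zero_mem _
  have hNH : N ⊓ H = ⊥ := by
    rw [eq_bot_iff]
    rintro x ⟨hxN, hxH⟩
    show x = 1
    by_contra hx1
    obtain ⟨χ0, hχ0, hχ1⟩ := Pool.Agent.TH264.Bridge.char_sep_mul C x hx1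
    refine hχ1 ?_
    let χ : C →ₜ* Circle := ⟨χ0, hχ0⟩
    have hxH' : x ∈ H' := ⟨hxH, hNM hxN⟩
    set q : ℚ := μ (l χ) with hq
    obtain ⟨c, hc⟩ : (q.den : ℤ) ∣ (q.den.factorial : ℤ) := by
      exact_mod_cast Nat.dvd_factorial q.den_pos le_rfl
    let e : ℤ := (m q.den : ℤ) * (q.num * c)
    have h2 : μ (l (ψ q.den ^ e)) = q := by
      rw [hlp, map_zsmul, hψ, hμ]
      have h3 : ((q.den.factorial : ℕ) : ℚ) = (q.den : ℚ) * (c : ℚ) := by
        exact_mod_cast congrArg (fun z : ℤ => (z : ℚ)) hc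
      have h4 : (m q.den : ℚ) ≠ 0 := by
        exact_mod_cast (hm q.den).ne'
      have h5 : (q.den : ℚ) ≠ 0 := by
        exact_mod_cast q.den_pos.ne'
      have h6 : (c : ℚ) ≠ 0 := by
        intro h0
        rw [h0, mul_zero] at h3
        have : (q.den.factorial : ℚ) ≠ 0 := by exact_mod_cast (Nat.factorial_pos _).ne'
        exact this h3
      rw [h3, zsmul_eq_mul]
      simp only [e]
      push_cast
      have h7 : q = q.num / q.den := (Rat.num_div_den q).symm
      field_simp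
      rw [mul_comm]
      exact (Rat.mul_den_eq_num q).symm
    have h3 : l (χ * (ψ q.den ^ e)⁻¹) ∈ AddMonoidHom.ker μ.toAddMonoidHom := by
      rw [AddMonoidHom.mem_ker]
      show μ (l (χ * (ψ q.den ^ e)⁻¹)) = 0
      rw [hlm, hli, map_add, map_neg, h2]
      exact add_neg_cancel q
    have h4 := hxN _ h3
    have h5 : χ x * ((ψ q.den ^ e) x)⁻¹ = 1 := h4
    have h6 : (ψ q.den ^ e) x = 1 := by
      have h7 : (ψ q.den ^ e) x = (ψ q.den x) ^ e := map_zpow (ev x) _ _
      rw [h7]
      simp only [e]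
      rw [zpow_mul, zpow_natCast, hmH q.den x hxH', one_zpow]
    rw [h6, inv_one, mul_one] at h5
    exact h5
  have hNbot : N = ⊥ := hV N (hAncl _) (hAnV _) hNH
  -- the characters killed by `μ` separate the points
  let B : Subgroup (C →ₜ* Circle) :=
    { carrier := {χ | μ (l χ) = 0}
      one_mem' := by
        show μ (l 1) = 0
        rw [hl1, map_zero]
      mul_mem' := fun {a b} ha hb => by
        show μ (l (a * b)) = 0
        rw [hlm, map_add]
        have ha' : μ (l a) = 0 := ha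
        have hb' : μ (l b) = 0 := hb
        rw [ha', hb', add_zero]
      inv_mem' := fun {a} ha => by
        show μ (l a⁻¹) = 0
        rw [hli, map_neg]
        have ha' : μ (l a) = 0 := ha
        rw [ha', neg_zero] }
  have hB : B = ⊤ := by
    refine hSEPD C B (fun x hx => ?_)
    by_contra hcon
    push Not at hcon
    have h1 : x ∈ N := by
      intro χ hχ
      exact hcon χ hχ
    rw [hNbot] at h1
    exact hx h1
  have h0 : ψ 0 ∈ B := by
    rw [hB]
    exact Subgroup.mem_top _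
  have h1 : μ (l (ψ 0)) = 0 := h0
  rw [hψ, hμ] at h1
  have h4 : (m 0 : ℚ) ≠ 0 := by
    exact_mod_cast (hm 0).ne'
  simp [h4] at h1

end Pool.Agent.Q11.LM
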