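import Pool.Agent.Q11.LM.Small

/-!
# Nilpotency of the completion and centrality of the identity component
-/

namespace Pool.Agent.Q11.LM

open Filter Topology
open scoped commutatorElement

universe u

theorem t_NIL : S_NIL.{u} := by
  intro G K _ _ _ _ _ ι hd hn
  obtain ⟨n, hn⟩ := Subgroup.nilpotent_iff_lowerCentralSeries.mp hn
  have key : ∀ i, ((⊤ : Subgroup K).lowerCentralSeries i : Set K) ⊆
      closure ((((⊤ : Subgroup G).lowerCentralSeries i).map ι : Subgroup K) : Set K) := by
    intro i
    induction i with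
    | zero =>
      intro x _
      have h1 : ((((⊤ : Subgroup G).lowerCentralSeries 0).map ι : Subgroup K) : Set K) =
          Set.range ι := by
        ext y
        simp
      rw [h1]
      exact hd x
    | succ i ih =>
      have h1 : (⊤ : Subgroup K).lowerCentralSeries (i + 1) ≤
          (((⊤ : Subgroup G).lowerCentralSeries (i + 1)).map ι).topologicalClosure := by
        rw [Subgroup.lowerCentralSeries_succ, Subgroup.commutator_le]
        intro x hx y _
        have hcont : Continuous (Function.uncurry fun x y : K => ⁅x, y⁆) := by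
          show Continuous (fun p : K × K => p.1 * p.2 * p.1⁻¹ * p.2⁻¹)
          fun_prop
        refine map_mem_closure₂ hcont (ih hx) (hd y) ?_
        rintro _ ⟨a, ha, rfl⟩ _ ⟨b, rfl⟩
        refine ⟨⁅a, b⁆, ?_, map_commutatorElement ι a b⟩
        rw [Subgroup.lowerCentralSeries_succ]
        exact Subgroup.commutator_mem_commutator ha (Subgroup.mem_top b)
      exact h1
  rw [Subgroup.nilpotent_iff_lowerCentralSeries]
  refine ⟨n, ?_⟩
  rw [eq_bot_iff]
  intro x hx
  have h1 := key n hx
  rw [hn, Subgroup.map_bot] at h1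
  have h2 : closure (((⊥ : Subgroup K) : Set K)) = {1} := by
    rw [Subgroup.coe_bot, closure_singleton]
  rw [h2] at h1
  exact h1

/-- a continuous bihomomorphism from a connected group and a compact group to the circle -/
theorem bihom_trivial {C K : Type*} [Group C] [TopologicalSpace C] [IsTopologicalGroup C]
    [ConnectedSpace C] [Group K] [TopologicalSpace K] [CompactSpace K] (β : C → K → Circle)
    (hβ : Continuous (Function.uncurry β)) (h1 : ∀ c c' k, β (c * c') k = β c k * β c' k)
    (h2 : ∀ c k k', β c (k * k') = β c k * β c k') (c : C) (k : K) : β c k = 1 := by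
  have h10 : ∀ k, β 1 k = 1 := by
    intro k
    have h := h1 1 1 k
    rw [mul_one] at h
    exact (mul_eq_left.mp h.symm)
  have h20 : ∀ c, β c 1 = 1 := by
    intro c
    have h := h2 c 1 1
    rw [mul_one] at h
    exact (mul_eq_left.mp h.symm)
  have h2p : ∀ c k (n : ℕ), β c (k ^ n) = β c k ^ n := by
    intro c k n
    induction n with
    | zero => rw [pow_zero, pow_zero, h20]
    | succ n ih => rw [pow_succ, pow_succ, h2, ih]
  let S : Subgroup C :=
    { carrier := {c | ∀ k, β c k = 1}
      one_mem' := h10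
      mul_mem' := fun {a b} ha hb k => by rw [h1, ha k, hb k, mul_one]
      inv_mem' := fun {a} ha k => by
        have h := h1 a a⁻¹ k
        rw [mul_inv_cancel, h10, ha k, one_mul] at h
        exact h.symm }
  have hS : (S : Set C) ∈ 𝓝 (1 : C) := by
    have hO : IsOpen {p : C × K | ‖((β p.1 p.2 : Circle) : ℂ) - 1‖ < 1} := by
      refine isOpen_lt ?_ continuous_const
      have hcc : Continuous (fun z : Circle => (z : ℂ)) := by fun_prop
      exact ((hcc.comp hβ).sub continuous_const).norm
    obtain ⟨u, v, hu, hv, h1u, hv1, huv⟩ := generalized_tube_lemma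
      (isCompact_singleton (x := (1 : C))) (isCompact_univ (X := K)) hO (by
        rintro ⟨a, b⟩ ⟨ha, -⟩
        have ha' : a = 1 := ha
        show ‖((β a b : Circle) : ℂ) - 1‖ < 1
        rw [ha', h10, Circle.coe_one, sub_self, norm_zero]
        exact one_pos)
    refine Filter.mem_of_superset (hu.mem_nhds (h1u rfl)) ?_
    intro c hc k
    refine nss (β c k) (fun n => ?_)
    rw [← h2p]
    exact huv (Set.mk_mem_prod hc (hv1 (Set.mem_univ _)))
  have hSo : IsOpen (S : Set C) := S.isOpen_of_mem_nhds hS
  have hSc : IsClopen (S : Set C) := ⟨S.isClosed_of_isOpen hSo, hSo⟩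
  have hSu : (S : Set C) = Set.univ := hSc.eq_univ ⟨1, S.one_mem⟩
  have hc : c ∈ (S : Set C) := by
    rw [hSu]
    exact Set.mem_univ _
  exact hc k

theorem cen_aux (n : ℕ) : ∀ (K : Type u) [Group K] [TopologicalSpace K] [IsTopologicalGroup K]
    [CompactSpace K] [T2Space K] [Group.IsNilpotent K], Group.nilpotencyClass K = n →
    ∀ c ∈ connectedComponent (1 : K), ∀ k : K, c * k = k * c := by
  induction n with
  | zero =>
    intro K _ _ _ _ _ _ hK c _ k
    have := Group.nilpotencyClass_zero_iff_subsingleton.mp hK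
    exact Subsingleton.elim _ _
  | succ n ih =>
    intro K _ _ _ _ _ _ hK c hc k
    let Z : Subgroup K := Subgroup.center K
    have hZcl : IsClosed (Z : Set K) := by
      have h1 : (Z : Set K) = ⋂ g : K, {x | g * x = x * g} := by
        ext x
        simp only [Set.mem_iInter, Set.mem_ofPred_eq, SetLike.mem_coe]
        exact Subgroup.mem_center_iff
      rw [h1]
      exact isClosed_iInter (fun g => isClosed_eq (by fun_prop) (by fun_prop))
    have hq : Group.nilpotencyClass (K ⧸ Z) = n := by
      rw [Group.nilpotencyClass_quotient_center, hK]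
      rfl
    have hcenq := ih (K ⧸ Z) hq
    have hcomm : ∀ c ∈ connectedComponent (1 : K), ∀ k : K, ⁅c, k⁆ ∈ Z := by
      intro c hc k
      have h1 : (QuotientGroup.mk c : K ⧸ Z) ∈ connectedComponent (1 : K ⧸ Z) := by
        have h2 : ((↑) : K → K ⧸ Z) '' (connectedComponent (1 : K)) ⊆
            connectedComponent (1 : K ⧸ Z) := by
          refine IsPreconnected.subset_connectedComponent ?_ ⟨1, mem_connectedComponent, rfl⟩
          exact isPreconnected_connectedComponent.image _ continuous_quotient_mk'.continuousOn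
        exact h2 ⟨c, hc, rfl⟩
      have h3 := hcenq _ h1 (QuotientGroup.mk k)
      rw [← QuotientGroup.eq_one_iff]
      have h4 : ((⁅c, k⁆ : K) : K ⧸ Z) = ⁅(c : K ⧸ Z), (k : K ⧸ Z)⁆ := rfl
      rw [h4, commutatorElement_eq_one_iff_mul_comm]
      exact h3
    let C : Subgroup K := Subgroup.connectedComponentOfOne K
    have : ConnectedSpace C := isConnected_iff_connectedSpace.mp isConnected_connectedComponent
    have : CompactSpace Z := isCompact_iff_compactSpace.mp hZcl.isCompact
    have hcz : ∀ z ∈ Z, ∀ g, z * g = g * z := fun z hz g => (Subgroup.mem_center_iff.mp hz g).symm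
    let _ : CommGroup Z := { (inferInstance : Group Z) with
      mul_comm := fun a b => Subtype.ext (hcz a a.2 b) }
    have : IsTopologicalGroup Z := inferInstance
    by_contra hne
    have h5 : (⟨⁅c, k⁆, hcomm c hc k⟩ : Z) ≠ 1 := by
      intro h
      have h6 : ⁅c, k⁆ = 1 := congrArg Subtype.val h
      exact hne (commutatorElement_eq_one_iff_mul_comm.mp h6)
    obtain ⟨χ, hχ, hχ1⟩ := Pool.Agent.TH264.Bridge.char_sep_mul Z _ h5
    refine hχ1 ?_
    refine bihom_trivial (C := C) (K := K) (fun c k => χ ⟨⁅(c : K), k⁆, hcomm c c.2 k⟩) ?_ ?_ ?_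
      ⟨c, hc⟩ k
    · refine hχ.comp ?_
      refine Continuous.subtype_mk ?_ _
      show Continuous (fun p : C × K => (p.1 : K) * p.2 * (p.1 : K)⁻¹ * p.2⁻¹)
      fun_prop
    · intro c c' k
      rw [← map_mul]
      congr 1
      apply Subtype.ext
      show ⁅(c : K) * c', k⁆ = ⁅(c : K), k⁆ * ⁅(c' : K), k⁆
      have h6 := hcz _ (hcomm c' c'.2 k) c
      have h7 : ⁅(c : K) * c', k⁆ = (c * ⁅(c' : K), k⁆) * (k * (c : K)⁻¹ * k⁻¹) := by
        simp only [commutatorElement_def]
        group
      rw [h7, ← h6]
      have h8 := hcz _ (hcomm c c.2 k) ⁅(c' : K), k⁆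
      rw [h8]
      simp only [commutatorElement_def]
      group
    · intro c k k'
      rw [← map_mul]
      congr 1
      apply Subtype.ext
      show ⁅(c : K), k * k'⁆ = ⁅(c : K), k⁆ * ⁅(c : K), k'⁆
      have h6 := hcz _ (hcomm c c.2 k') k
      have h7 : ⁅(c : K), k * k'⁆ = ⁅(c : K), k⁆ * (k * ⁅(c : K), k'⁆ * k⁻¹) := by
        simp only [commutatorElement_def]
        group
      rw [h7, ← h6, mul_inv_cancel_right]

theorem t_CEN : S_CEN.{u} := by
  intro K _ _ _ _ _ hn c hc k
  exact cen_aux _ K rfl c hc k

end Pool.Agent.Q11.LM
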