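import Pool.Agent.Q11.LM.Stm

/-!
# The alternative on the rank
-/

namespace Pool.Agent.Q11.LM

open scoped TensorProduct

universe u

theorem t_RNK : S_RNK.{u} := by
  intro A _ htf F
  classical
  let f : A →ₗ[ℤ] ℚ ⊗[ℤ] A := TensorProduct.mk ℤ ℚ A 1
  have hloc : IsLocalizedModule (nonZeroDivisors ℤ) f :=
    (isLocalizedModule_iff_isBaseChange (nonZeroDivisors ℤ) ℚ f).mpr
      (TensorProduct.isBaseChange ℤ A ℚ)
  have hinj : Function.Injective f := by
    intro x y hxy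
    obtain ⟨c, hc⟩ := (IsLocalizedModule.eq_iff_exists (nonZeroDivisors ℤ) f).mp hxy
    have hc0 : (c : ℤ) ≠ 0 := nonZeroDivisors.ne_zero c.2
    have h1 : (c : ℤ) • (x - y) = 0 := by
      rw [smul_sub]
      exact sub_eq_zero.mpr hc
    have h2 : (c : ℤ).natAbs • (x - y) = 0 := by
      rcases Int.natAbs_eq (c : ℤ) with h | h
      · rw [h, natCast_zsmul] at h1
        exact h1
      · rw [h, neg_smul, natCast_zsmul, neg_eq_zero] at h1
        exact h1
    exact sub_eq_zero.mp (htf _ _ (Int.natAbs_ne_zero.mpr hc0) h2)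
  have hsurj : ∀ v : ℚ ⊗[ℤ] A, ∃ (k : ℤ) (a : A), k ≠ 0 ∧ k • v = f a := by
    intro v
    obtain ⟨⟨a, c⟩, h⟩ := IsLocalizedModule.surj (nonZeroDivisors ℤ) f v
    exact ⟨c, a, nonZeroDivisors.ne_zero c.2, h⟩
  let W : Submodule ℚ (ℚ ⊗[ℤ] A) := Submodule.span ℚ (f '' (F : Set A))
  by_cases hfin : Module.Finite ℚ ((ℚ ⊗[ℤ] A) ⧸ W)
  · left
    have hW : Module.Finite ℚ W := Module.Finite.span_of_finite ℚ ((Finset.finite_toSet F).image f)
    have hV : Module.Finite ℚ (ℚ ⊗[ℤ] A) := Module.Finite.of_submodule_quotient W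
    let b := Module.finBasis ℚ (ℚ ⊗[ℤ] A)
    have hc : Countable (ℚ ⊗[ℤ] A) := by
      have : Countable (Fin (Module.finrank ℚ (ℚ ⊗[ℤ] A)) → ℚ) := inferInstance
      exact b.equivFun.injective.countable
    exact hinj.countable
  · right
    let b := Module.Basis.ofVectorSpace ℚ ((ℚ ⊗[ℤ] A) ⧸ W)
    have hinf : Infinite (Module.Basis.ofVectorSpaceIndex ℚ ((ℚ ⊗[ℤ] A) ⧸ W)) := by
      by_contra hcon
      rw [not_infinite_iff_finite] at hcon
      exact hfin (Module.Finite.of_basis b)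
    let e := Infinite.natEmbedding (Module.Basis.ofVectorSpaceIndex ℚ ((ℚ ⊗[ℤ] A) ⧸ W))
    have hch : ∀ n, ∃ (k : ℤ) (a : A), k ≠ 0 ∧ k • b (e n) = W.mkQ (f a) := by
      intro n
      obtain ⟨v, hv⟩ := W.mkQ_surjective (b (e n))
      obtain ⟨k, a, hk, hka⟩ := hsurj v
      refine ⟨k, a, hk, ?_⟩
      rw [← hv, ← hka, map_zsmul]
    choose k a hk hka using hch
    let μ : ((ℚ ⊗[ℤ] A) ⧸ W) →ₗ[ℚ] (ℕ →₀ ℚ) := b.constr ℚ (fun i =>
      if h : ∃ n, e n = i then ((k h.choose : ℚ)⁻¹) • Finsupp.single h.choose 1 else 0)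
    have hμ : ∀ n, μ (b (e n)) = ((k n : ℚ)⁻¹) • Finsupp.single n 1 := by
      intro n
      simp only [μ]
      rw [Module.Basis.constr_basis]
      have h : ∃ m, e m = e n := ⟨n, rfl⟩
      rw [dif_pos h]
      have h2 : h.choose = n := e.injective h.choose_spec
      rw [h2]
    refine ⟨(μ.toAddMonoidHom.comp W.mkQ.toAddMonoidHom).comp f.toAddMonoidHom, ?_, ?_⟩
    · intro a ha
      show μ (W.mkQ (f a)) = 0
      have h1 : W.mkQ (f a) = 0 := by
        rw [Submodule.mkQ_apply, Submodule.Quotient.mk_eq_zero]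
        exact Submodule.subset_span ⟨a, ha, rfl⟩
      rw [h1, map_zero]
    · intro n
      refine ⟨a n, ?_⟩
      show μ (W.mkQ (f (a n))) = Finsupp.single n 1
      rw [← hka, map_zsmul, hμ]
      have h1 : ((k n : ℚ)) ≠ 0 := by exact_mod_cast hk n
      rw [← Int.cast_smul_eq_zsmul ℚ, smul_smul, mul_inv_cancel₀ h1, one_smul]

end Pool.Agent.Q11.LM
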