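import Pool.Agent.Q11.LM.Stm

/-!
# Sequences approaching a first countable closed set
-/

namespace Pool.Agent.Q11.LM

open Filter Topology

universe u

theorem t_SEQ : S_SEQ.{u} := by
  intro X _ _ _ C hC hfc y hy
  classical
  -- separation from the closed set
  have hsep : ∀ z, z ∉ C → ∃ U V : Set X, IsOpen U ∧ IsOpen V ∧ z ∈ U ∧ C ⊆ V ∧ Disjoint U V := by
    intro z hz
    obtain ⟨U, V, hU, hV, hzU, hCV, hd⟩ := SeparatedNhds.of_isCompact_isClosed
      (isCompact_singleton (x := z)) hC (Set.disjoint_singleton_left.mpr hz)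
    exact ⟨U, V, hU, hV, hzU rfl, hCV, hd⟩
  obtain ⟨c, hc⟩ : ∃ c, MapClusterPt c atTop y := exists_clusterPt_of_compactSpace _
  have hfreq : ∀ O ∈ 𝓝 c, ∃ᶠ n in atTop, y n ∈ O := fun O hO => hc.frequently hO
  have hcC : c ∈ C := by
    by_contra hcC
    obtain ⟨U, V, hU, hV, hzU, hCV, hd⟩ := hsep c hcC
    obtain ⟨n, hn1, hn2⟩ := ((hfreq U (hU.mem_nhds hzU)).and_eventually (hy V hV hCV)).exists
    exact Set.disjoint_left.mp hd hn1 hn2
  obtain ⟨B, hB⟩ := (𝓝 (⟨c, hcC⟩ : C)).exists_antitone_basis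
  have hO : ∀ k, ∃ W : Set X, W ∈ 𝓝 c ∧ IsClosed W ∧ ∀ z : C, (z : X) ∈ W → z ∈ B k := by
    intro k
    have h1 : B k ∈ 𝓝 (⟨c, hcC⟩ : C) := hB.mem k
    rw [mem_nhds_subtype] at h1
    obtain ⟨O, hO, hOB⟩ := h1
    obtain ⟨W, hW, hWc, hWO⟩ := exists_mem_nhds_isClosed_subset hO
    exact ⟨W, hW, hWc, fun z hz => hOB (hWO hz)⟩
  choose W hWn hWc hWB using hO
  let W' : ℕ → Set X := fun k => ⋂ j ∈ Finset.range (k + 1), W j
  have hW'n : ∀ k, W' k ∈ 𝓝 c := fun k =>
    (Filter.biInter_finset_mem _).mpr (fun j _ => hWn j)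
  have hW'c : ∀ k, IsClosed (W' k) := fun k => isClosed_biInter (fun j _ => hWc j)
  have hW'anti : ∀ j k, j ≤ k → W' k ⊆ W' j := by
    intro j k hjk x hx
    simp only [W', Set.mem_iInter, Finset.mem_range] at hx ⊢
    exact fun i hi => hx i (by omega)
  have hW'W : ∀ k, W' k ⊆ W k := by
    intro k x hx
    simp only [W', Set.mem_iInter, Finset.mem_range] at hx
    exact hx k (by omega)
  obtain ⟨φ, hφ, hφW⟩ := Filter.extraction_forall_of_frequently (P := fun k n => y n ∈ W' k)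
    (fun k => hfreq _ (hW'n k))
  refine ⟨c, hcC, φ, hφ, ?_⟩
  rw [tendsto_nhds]
  intro O hO hcO
  obtain ⟨k, hk⟩ := exists_subset_nhds_of_isCompact'
    (V := fun k : ℕ => W' k ∩ closure (y '' {n | k ≤ n})) (by
      intro i j
      refine ⟨max i j, ?_, ?_⟩
      · refine Set.inter_subset_inter (hW'anti _ _ (le_max_left _ _)) (closure_mono ?_)
        exact Set.image_mono (fun n (hn : max i j ≤ n) => (le_trans (le_max_left i j) hn : i ≤ n))
      · refine Set.inter_subset_inter (hW'anti _ _ (le_max_right _ _)) (closure_mono ?_)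
        exact Set.image_mono (fun n (hn : max i j ≤ n) => (le_trans (le_max_right i j) hn : j ≤ n)))
    (fun k => ((hW'c k).inter isClosed_closure).isCompact)
    (fun k => (hW'c k).inter isClosed_closure) (U := O) (by
      intro z hz
      rw [Set.mem_iInter] at hz
      have hzC : z ∈ C := by
        by_contra hzC
        obtain ⟨U, V, hU, hV, hzU, hCV, hd⟩ := hsep z hzC
        obtain ⟨N, hN⟩ := Filter.eventually_atTop.mp (hy V hV hCV)
        have h1 := (hz N).2
        rw [mem_closure_iff] at h1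
        obtain ⟨w, hwU, n, hn, rfl⟩ := h1 U hU hzU
        exact Set.disjoint_left.mp hd hwU (hN n hn)
      have hzc : z = c := by
        by_contra hne
        have h1 : (⟨c, hcC⟩ : C) ≠ ⟨z, hzC⟩ := fun h => hne (congrArg Subtype.val h).symm
        have h2 : ({⟨z, hzC⟩}ᶜ : Set C) ∈ 𝓝 (⟨c, hcC⟩ : C) := isOpen_compl_singleton.mem_nhds h1
        obtain ⟨k, -, hk⟩ := hB.toHasBasis.mem_iff.mp h2
        exact hk (hWB k ⟨z, hzC⟩ (hW'W k (hz k).1)) rfl
      rw [hzc]
      exact hO.mem_nhds hcO)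
  filter_upwards [Filter.eventually_ge_atTop k] with j hj
  refine hk ⟨hW'anti k j hj (hφW j), subset_closure ⟨φ j, ?_, rfl⟩⟩
  exact le_trans hj hφ.le_apply

end Pool.Agent.Q11.LM
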