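import Pool.Agent.Q11.LM.Inf

/-!
# Small statements
-/

namespace Pool.Agent.Q11.LM

open Filter Topology

universe u

theorem t_SQC : S_SQC.{u} := by
  intro G K _ _ _ _ _ _ _ ι he hsc x k hxk
  have h1 : ∀ (f : ℕ × ℕ → G), Tendsto (fun p => ι (f p)) atTop (𝓝 1) → Tendsto f atTop (𝓝 1) := by
    intro f hf
    rw [he.isInducing.tendsto_nhds_iff, map_one]
    exact hf
  have hfst : Tendsto (fun p : ℕ × ℕ => ι (x p.1)) atTop (𝓝 k) :=
    hxk.comp (by rw [← prod_atTop_atTop_eq]; exact tendsto_fst)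
  have hsnd : Tendsto (fun p : ℕ × ℕ => ι (x p.2)) atTop (𝓝 k) :=
    hxk.comp (by rw [← prod_atTop_atTop_eq]; exact tendsto_snd)
  obtain ⟨a, ha⟩ := hsc x
    (h1 _ (by
      simp only [map_mul, map_inv]
      have := hfst.inv.mul hsnd
      rwa [inv_mul_cancel] at this))
    (h1 _ (by
      simp only [map_mul, map_inv]
      have := hfst.mul hsnd.inv
      rwa [mul_inv_cancel] at this))
  exact ⟨a, tendsto_nhds_unique ((he.continuous.tendsto a).comp ha) hxk⟩

theorem t_FCT : S_FCT.{u} := by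
  intro X _ _ I _ f hf hsep
  have hc : Continuous (fun (x : X) (i : I) => f i x) := continuous_pi hf
  have hinj : Function.Injective (fun (x : X) (i : I) => f i x) := by
    intro x y hxy
    exact hsep x y (fun i => congrFun hxy i)
  exact (hc.isClosedEmbedding hinj).isEmbedding.isInducing.firstCountableTopology

theorem t_DIV : S_DIV.{u} := by
  intro A _ _ _ _ _ _ n hn a
  let P : Subgroup A := (powMonoidHom n : A →* A).range
  have hPcl : IsClosed (P : Set A) := by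
    have h1 : (P : Set A) = Set.range (fun x : A => x ^ n) := rfl
    rw [h1]
    exact (isCompact_range (continuous_pow n)).isClosed
  by_contra hcon
  have ha : a ∉ P := by
    rintro ⟨b, hb⟩
    exact hcon ⟨b, hb⟩
  have h1 : (QuotientGroup.mk a : A ⧸ P) ≠ 1 := by
    intro h
    exact ha ((QuotientGroup.eq_one_iff a).mp h)
  obtain ⟨χ, hχ, hχ1⟩ := Pool.Agent.TH264.Bridge.char_sep_mul (A ⧸ P) _ h1
  let ψ : A →ₜ* Circle := ⟨χ.comp (QuotientGroup.mk' P), hχ.comp continuous_quotient_mk'⟩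
  have h2 : ψ ^ n = 1 := by
    refine DFunLike.ext _ _ (fun x => ?_)
    have h3 : (ψ ^ n) x = (ψ x) ^ n := map_pow (ev x) ψ n
    rw [h3, ← map_pow]
    have h4 : (QuotientGroup.mk' P) (x ^ n) = 1 := by
      rw [QuotientGroup.mk'_apply]
      exact (QuotientGroup.eq_one_iff _).mpr ⟨x, rfl⟩
    show χ ((QuotientGroup.mk' P) (x ^ n)) = 1
    rw [h4, map_one]
  have h3 := char_torsionfree n ψ hn h2
  have h4 : ψ a = 1 := by rw [h3]; rfl
  exact hχ1 h4

theorem t_ONS : S_ONS.{u} := by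
  intro K _ _ _ _ _ W hW hsub
  rw [connectedComponent_eq_iInter_isClopen] at hsub
  have : Nonempty { s : Set K // IsClopen s ∧ (1 : K) ∈ s } := ⟨⟨Set.univ, isClopen_univ, trivial⟩⟩
  obtain ⟨Z, hZ⟩ := exists_subset_nhds_of_isCompact'
    (V := fun s : { s : Set K // IsClopen s ∧ (1 : K) ∈ s } => (s : Set K)) (by
      intro s t
      refine ⟨⟨s.1 ∩ t.1, s.2.1.inter t.2.1, s.2.2, t.2.2⟩, ?_, ?_⟩
      · exact Set.inter_subset_left
      · exact Set.inter_subset_right)
    (fun s => s.2.1.isClosed.isCompact) (fun s => s.2.1.isClosed)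
    (U := W) (fun x hx => hW.mem_nhds (hsub hx))
  obtain ⟨H, hH⟩ := IsTopologicalGroup.exist_openNormalSubgroup_sub_clopen_nhds_of_one
    Z.2.1 Z.2.2
  exact ⟨H.toSubgroup, H.isNormal', H.isOpen', hH.trans hZ⟩

/-- no small subgroups in the circle -/
theorem nss (z : Circle) (h : ∀ k : ℕ, ‖((z ^ k : Circle) : ℂ) - 1‖ < 1) : z = 1 := by
  have hre : ∀ k : ℕ, (1 : ℝ) / 2 ≤ (((z : ℂ) ^ k)).re := by
    intro k
    have h1 := h k
    rw [Circle.coe_pow] at h1
    have h2 : ‖(z : ℂ) ^ k - 1‖ ^ 2 < 1 := by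
      have := norm_nonneg ((z : ℂ) ^ k - 1)
      nlinarith
    have h3 : ‖(z : ℂ) ^ k‖ = 1 := by rw [norm_pow, Circle.norm_coe, one_pow]
    have h4 : ((z : ℂ) ^ k).re ^ 2 + ((z : ℂ) ^ k).im ^ 2 = 1 := by
      have h5 := Complex.sq_norm ((z : ℂ) ^ k)
      rw [h3, Complex.normSq_apply] at h5
      nlinarith
    rw [Complex.sq_norm, Complex.normSq_apply, Complex.sub_re, Complex.sub_im, Complex.one_re,
      Complex.one_im] at h2
    nlinarith
  by_contra hz
  have hpos : 0 < ‖(z : ℂ) - 1‖ := by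
    rw [norm_pos_iff, sub_ne_zero]
    intro h1
    exact hz (Circle.coe_injective (by rw [h1, Circle.coe_one]))
  obtain ⟨N, hN⟩ := exists_nat_gt (2 / ‖(z : ℂ) - 1‖)
  have h1 : (∑ i ∈ Finset.range N, (z : ℂ) ^ i) * ((z : ℂ) - 1) = (z : ℂ) ^ N - 1 := geom_sum_mul _ _
  have h2 : (N : ℝ) / 2 ≤ ‖∑ i ∈ Finset.range N, (z : ℂ) ^ i‖ := by
    refine le_trans ?_ (Complex.re_le_norm _)
    rw [Complex.re_sum]
    have h3 : ∑ i ∈ Finset.range N, (1 : ℝ) / 2 ≤ ∑ i ∈ Finset.range N, ((z : ℂ) ^ i).re :=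
      Finset.sum_le_sum (fun i _ => hre i)
    refine le_trans (le_of_eq ?_) h3
    rw [Finset.sum_const, Finset.card_range, nsmul_eq_mul]
    ring
  have h3 := congrArg norm h1
  rw [norm_mul] at h3
  have h4 : ‖(z : ℂ) ^ N - 1‖ < 1 := by
    have := h N
    rwa [Circle.coe_pow] at this
  rw [← h3] at h4
  rw [div_lt_iff₀ hpos] at hN
  nlinarith

theorem t_FCH : S_FCH.{u} := by
  intro H _ _ _ _ _ _ χ hχ
  have hO : IsOpen {x : H | ‖((χ x : Circle) : ℂ) - 1‖ < 1} := by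
    refine isOpen_lt ?_ continuous_const
    have hcc : Continuous (fun z : Circle => (z : ℂ)) := by fun_prop
    exact ((hcc.comp hχ).sub continuous_const).norm
  obtain ⟨N, hN⟩ := ProfiniteGrp.exist_openNormalSubgroup_sub_open_nhds_of_one hO (by
    show ‖((χ 1 : Circle) : ℂ) - 1‖ < 1
    rw [map_one, Circle.coe_one, sub_self, norm_zero]
    exact one_pos)
  have hker : ∀ x ∈ N.toSubgroup, χ x = 1 := by
    intro x hx
    refine nss (χ x) (fun k => ?_)
    have h1 := hN (show x ^ k ∈ (N : Set H) from N.toSubgroup.pow_mem hx k)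
    have h2 : ‖((χ (x ^ k) : Circle) : ℂ) - 1‖ < 1 := h1
    rwa [map_pow] at h2
  have hfi : N.toSubgroup.FiniteIndex := N.toOpenSubgroup.finiteIndex_of_finite_quotient
  have hnorm : N.toSubgroup.Normal := N.isNormal'
  refine ⟨N.toSubgroup.index, Nat.pos_of_ne_zero hfi.index_ne_zero, fun x => ?_⟩
  rw [← map_pow]
  exact hker _ (N.toSubgroup.pow_index_mem x)

end Pool.Agent.Q11.LM
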