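import Pool.Agent.Q11.LM.Asm
import Pool.Agent.Q11.LM.Inf
import Pool.Agent.Q11.LM.Small
import Pool.Agent.Q11.LM.Fin
import Pool.Agent.Q11.LM.Seq
import Pool.Agent.Q11.LM.Nil
import Pool.Agent.Q11.LM.Ess
import Pool.Agent.Q11.LM.Sep
import Pool.Agent.Q11.LM.Rnk

/-!
# The theorem
-/

namespace Pool.Agent.Q11.LM

open Filter Topology

universe u

theorem final (G K : Type u) [Group G] [TopologicalSpace G] [IsTopologicalGroup G]
    [Group K] [TopologicalSpace K] [IsTopologicalGroup K] [CompactSpace K] [T2Space K]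
    (ι : G →* K) (he : IsEmbedding ι) (hd : DenseRange ι) (hn : Group.IsNilpotent G)
    (hsc : SeqComplete G) (hlm : LocMin G) (hcc : connectedComponent (1 : G) = {1}) :
    connectedComponent (1 : K) = {1} :=
  main t_NIL t_CEN t_ESS t_SQC t_FCT (t_FIN t_DIV t_SEQ t_ONS)
    (t_INF t_FCT t_FCH t_RNK t_SEPD) G K ι he hd hn hsc hlm hcc

end Pool.Agent.Q11.LM
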