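import Pool.Agent.TH264.Bridge.PW

/-!
# Statements for the project LM (problem MP_0bb520_al)

`c(K)` is the connected component of the identity. Characters are the continuous homomorphisms to
`Circle`; they separate the points of a compact Hausdorff abelian group:
`Pool.Agent.TH264.Bridge.char_sep_mul` (usable in every job).
-/

namespace Pool.Agent.Q11.LM

open Filter Topology

universe u

/-- `G` is locally minimal: there is a neighbourhood `U` of the identity such that any Hausdorff
group topology on `G` that is coarser than the given one and in which `U` is still a neighbourhood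
of the identity coincides with the given one. -/
def LocMin (G : Type u) [Group G] [τ : TopologicalSpace G] : Prop :=
  ∃ U ∈ 𝓝 (1 : G), ∀ σ : TopologicalSpace G, @IsTopologicalGroup G σ _ → @T2Space G σ →
    τ ≤ σ → U ∈ @nhds G σ 1 → σ = τ

/-- `G` is sequentially complete: every sequence which is Cauchy in the two-sided uniformity
converges. -/
def SeqComplete (G : Type u) [Group G] [TopologicalSpace G] : Prop :=
  ∀ x : ℕ → G, Tendsto (fun p : ℕ × ℕ => (x p.1)⁻¹ * x p.2) atTop (𝓝 1) →
    Tendsto (fun p : ℕ × ℕ => x p.1 * (x p.2)⁻¹) atTop (𝓝 1) → ∃ a, Tendsto x atTop (𝓝 a)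

/-- Nilpotency passes to groups with a dense nilpotent subgroup.

Proof. By induction on `i`, every element of the `i`-th term of the lower central series of `K`
lies in the topological closure of the image under `ι` of the `i`-th term of the lower central
series of `G` (this closure is a subgroup of `K`; the commutator map is continuous, the closure of
`ι(L_i) × ι(G)` is `closure (ι L_i) × K`, so commutators of elements of the closure of `ι(L_i)` with
elements of `K` lie in the closure of `ι(L_{i+1})`). For `i = n` with `L_n = 1` the closure of the
trivial subgroup is trivial, as `K` is Hausdorff. -/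
def S_NIL : Prop := ∀ (G K : Type u) [Group G] [Group K] [TopologicalSpace K]
  [IsTopologicalGroup K] [T2Space K] (ι : G →* K), DenseRange ι → Group.IsNilpotent G →
    Group.IsNilpotent K

/-- The identity component of a compact nilpotent group is central.

Proof. Induction on the nilpotency class (Mathlib: `Group.nilpotencyClass`,
`Group.nilpotencyClass_quotient_center`, or `Group.nilpotent_center_quotient_ind`, but note the
topological hypotheses, which have to be carried along). The centre `Z` of `K` is closed, `K/Z` is
again compact Hausdorff nilpotent, and the image of `C = c(K)` in `K/Z` is connected and contains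
the identity, hence it is central in `K/Z` by induction: `[c, k] = c k c⁻¹ k⁻¹` lies in `Z` for
`c ∈ C`, `k ∈ K`. Hence `[c c', k] = [c, k][c', k]` and `[c, k k'] = [c, k][c, k']`. Let `χ` be a
character of the compact abelian group `Z`. By compactness of `K` there is an open neighbourhood
`U` of `1` in `C` with `‖χ [u, k] - 1‖ < 1` for all `u ∈ U`, `k ∈ K` (tube lemma: `{1} × K` lies in
the open set `{(c, k) | ‖χ[c, k] - 1‖ < 1}`). For fixed `u`, the numbers `χ [u, k]`, `k ∈ K`, form a
subgroup of the circle, contained in `{‖z - 1‖ < 1}`, so it is trivial. Hence the subgroup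
`{c ∈ C | χ [c, k] = 1 for all k}` of `C` is open in `C`, so it is `C` (connectedness). As the
characters separate the points of `Z`, all `[c, k]` are `1`. -/
def S_CEN : Prop := ∀ (K : Type u) [Group K] [TopologicalSpace K] [IsTopologicalGroup K]
  [CompactSpace K] [T2Space K], Group.IsNilpotent K →
    ∀ c ∈ connectedComponent (1 : K), ∀ k : K, c * k = k * c

/-- Local minimality implies local essentiality in the completion.

Proof. Let `U` be as in `LocMin`. As `ι` is inducing there is an open `W ∋ 1` in `K` with
`ι⁻¹(W) ⊆ U`, and an open `V ∋ 1` with `V * V ⊆ W`. Let `N ⊆ V` be a closed normal subgroup with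
`ι⁻¹(N) = 1`. Let `σ` be the topology on `G` induced by `G → K → K/N`. The quotient `K/N` is a
Hausdorff topological group (`N` closed) and `G → K/N` is injective, so `σ` is a Hausdorff group
topology, coarser than the topology of `G`. The set `V N` is open and saturated and contained in
`V * V ⊆ W`, so its image in `K/N` is an open neighbourhood of `1` and `U` is a `σ`-neighbourhood
of `1`. Hence `σ` is the topology of `G`. Let `x ∈ N`, `x ≠ 1`. Choose a neighbourhood `O` of `1`
in `G` and a neighbourhood `P` of `x` in `K` with `ι(O)` disjoint from `P` (take disjoint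
neighbourhoods of `1` and `x` in `K`). As `O` is a `σ`-neighbourhood there is an open neighbourhood
`Q` of `1` in `K` with `ι⁻¹(Q N) ⊆ O`. The set `(x Q) ∩ P` is a neighbourhood of `x`, so it
contains `ι g` for some `g` (density); `ι g ∈ x Q ⊆ N Q = Q N`, so `g ∈ O`, and `ι g ∈ P`:
contradiction. -/
def S_ESS : Prop := ∀ (G K : Type u) [Group G] [TopologicalSpace G] [IsTopologicalGroup G]
  [Group K] [TopologicalSpace K] [IsTopologicalGroup K] [T2Space K] (ι : G →* K),
    IsEmbedding ι → DenseRange ι → LocMin G →
    ∃ V : Set K, IsOpen V ∧ (1 : K) ∈ V ∧ ∀ N : Subgroup K, N.Normal → IsClosed (N : Set K) →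
      (N : Set K) ⊆ V → (∀ g, ι g ∈ N → g = 1) → N = ⊥

/-- The image of a sequentially complete group under an embedding is sequentially closed.

Proof. If `ι (x n) → k` then `(x m)⁻¹ * x n` and `x m * (x n)⁻¹` tend to `1` (as `(m, n) → ∞`),
because their images under the inducing map `ι` tend to `k⁻¹ k = 1` and `k k⁻¹ = 1`; so `x`
converges to some `a` and `k = ι a` by uniqueness of limits. -/
def S_SQC : Prop := ∀ (G K : Type u) [Group G] [TopologicalSpace G] [IsTopologicalGroup G]
  [Group K] [TopologicalSpace K] [IsTopologicalGroup K] [T2Space K] (ι : G →* K),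
    IsEmbedding ι → SeqComplete G → ∀ (x : ℕ → G) (k : K),
      Tendsto (fun n => ι (x n)) atTop (𝓝 k) → k ∈ Set.range ι

/-- Compact connected abelian groups are divisible.

Proof. Let `P` be the subgroup of `n`-th powers; it is compact (the image of `A` under a continuous
map), so it is closed, and `A/P` is a compact Hausdorff abelian group. If `P ≠ A` there is a
character `χ` of `A/P` which is not trivial (`char_sep_mul`); composed with `A → A/P` it is a
continuous homomorphism `ψ : A → Circle` with `ψ(a)^n = ψ(a^n) = 1`, so its image is contained in
the finite set of `n`-th roots of unity; `A` is connected, so the image is one point: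
contradiction. -/
def S_DIV : Prop := ∀ (A : Type u) [CommGroup A] [TopologicalSpace A] [IsTopologicalGroup A]
  [CompactSpace A] [T2Space A] [ConnectedSpace A] (n : ℕ), n ≠ 0 → ∀ a : A, ∃ b : A, b ^ n = a

/-- A sequence approaching a first countable closed subset of a compact Hausdorff space has a
subsequence converging to a point of this subset.

Proof. Let `c` be a cluster point of `y` (compactness). It lies in `C`: otherwise there are disjoint
open sets `O ∋ c` and `W ⊇ C` and `y n ∈ W` for almost all `n`. Choose open sets `W k ∋ c` in `X`,
`k ∈ ℕ`, such that the sets `W k ∩ C` form a basis of neighbourhoods of `c` in `C`, and by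
regularity we may assume `closure (W (k+1)) ⊆ W k`. Choose `φ` strictly increasing with
`y (φ k) ∈ W k` (`c` is a cluster point). Let `O` be an open neighbourhood of `c`. The sets
`closure (W k) ∩ Oᶜ ∩ closure {y n | n ≥ k}` are compact and decreasing and their intersection is
contained in `⋂ closure (W k) ∩ C ∩ Oᶜ`, because `⋂ closure {y n | n ≥ k} ⊆ C` (as above), and
this is empty as `⋂ closure (W k) ∩ C = {c}`. So one of them is empty, and `y (φ j) ∈ O` for all
`j ≥ k`. -/
def S_SEQ : Prop := ∀ (X : Type u) [TopologicalSpace X] [CompactSpace X] [T2Space X] (C : Set X),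
  IsClosed C → FirstCountableTopology C → ∀ y : ℕ → X,
    (∀ W : Set X, IsOpen W → C ⊆ W → ∀ᶠ n in atTop, y n ∈ W) →
    ∃ c ∈ C, ∃ φ : ℕ → ℕ, StrictMono φ ∧ Tendsto (fun k => y (φ k)) atTop (𝓝 c)

/-- A compact space with countably many continuous maps to the circle that separate the points is
first countable (even second countable).

Proof. The map to the product of countably many circles is continuous and injective from a compact
space to a Hausdorff space, hence an embedding, and the product is first (second) countable. -/
def S_FCT : Prop := ∀ (X : Type u) [TopologicalSpace X] [CompactSpace X] (I : Type u) [Countable I]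
  (f : I → X → Circle), (∀ i, Continuous (f i)) → (∀ x y, (∀ i, f i x = f i y) → x = y) →
    FirstCountableTopology X

/-- The identity component of a compact group has arbitrarily small neighbourhoods which are open
normal subgroups.

Proof. In a compact Hausdorff space the connected component of a point is the intersection of the
clopen sets containing it (`connectedComponent_eq_iInter_isClopen`), so by compactness there is a
clopen set `Z` with `1 ∈ Z ⊆ W` and then there is an open normal subgroup inside `Z`
(`IsTopologicalGroup.exist_openNormalSubgroup_sub_clopen_nhds_of_one` or similar name). -/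
def S_ONS : Prop := ∀ (K : Type u) [Group K] [TopologicalSpace K] [IsTopologicalGroup K]
  [CompactSpace K] [T2Space K] (W : Set K), IsOpen W → connectedComponent (1 : K) ⊆ W →
    ∃ U : Subgroup K, U.Normal ∧ IsOpen (U : Set K) ∧ (U : Set K) ⊆ W

/-- **Final step.** If `c(K)` is abelian and first countable, and `G` is dense and sequentially
closed, then `c(K) ⊆ G`.

Proof. Let `C = c(K)`, `H = C ∩ G`. As `C` is first countable and `H` is sequentially closed in `C`,
the set `H` is closed. Claim: for each open `W ⊇ H` there is `n ≥ 1` with `g ^ (n!) ∈ W` for all
`g ∈ G`. Otherwise for each `n` there is `g n ∈ G` with `y n := g n ^ (n!) ∉ W`. Every open set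
containing `C` contains an open normal subgroup `U` (`S_ONS`), of finite index `m` by compactness,
and `y n ∈ U` for `n ≥ m` (`Subgroup.pow_index_mem`, `m ∣ n!`). By `S_SEQ` a subsequence of `y`
converges to some `c ∈ C`; `c ∈ G` as `G` is sequentially closed; so `c ∈ H ⊆ W`, contradicting
`y n ∉ W`. By density and continuity of `x ↦ x ^ (n!)` we get `x ^ (n!) ∈ closure W` for all
`x ∈ K`; the group `C` is divisible (`S_DIV`, `C` is a compact connected abelian group), so
`C ⊆ closure W`. As `K` is normal and `H` is closed, the intersection of the closures of the
open sets containing `H` is `H`; so `C ⊆ H`. -/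
def S_FIN : Prop := ∀ (K : Type u) [Group K] [TopologicalSpace K] [IsTopologicalGroup K]
  [CompactSpace K] [T2Space K] (G : Subgroup K), Dense (G : Set K) →
    (∀ (x : ℕ → K) (k : K), (∀ n, x n ∈ G) → Tendsto x atTop (𝓝 k) → k ∈ G) →
    (∀ c ∈ connectedComponent (1 : K), ∀ k : K, c * k = k * c) →
    FirstCountableTopology (connectedComponent (1 : K)) →
    connectedComponent (1 : K) ⊆ (G : Set K)

/-- A group of characters separating the points is everything.

Proof. `A` is compact Hausdorff. The linear span of `B` in `C(A, ℂ)` is a star subalgebra
(`B` is a group, complex conjugation is inversion of characters) which separates the points, so it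
is dense (Stone-Weierstrass, `ContinuousMap.starSubalgebra_topologicalClosure_eq_top_of_separatesPoints`).
Let `χ` be a character not in `B`, `μ` the Haar probability measure. For `β ∈ B` the
character `β⁻¹ χ` is nontrivial, so its integral is `0` (translation invariance). So
`∫ conj f * χ = 0` for all `f` in the span, and by density for all continuous `f`, in particular for
`f = χ`: but then the integral is `1`. (See also `exists_prod_of_inducing` in
`Pool/Agent/Helper69/Dual.lean`, which is stated for `Type` only: its proof can be copied.) -/
def S_SEPD : Prop := ∀ (A : Type u) [CommGroup A] [TopologicalSpace A] [IsTopologicalGroup A]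
  [CompactSpace A] [T2Space A] (B : Subgroup (A →ₜ* Circle)),
    (∀ x : A, x ≠ 1 → ∃ χ ∈ B, χ x ≠ 1) → B = ⊤

/-- A character of a compact totally disconnected group has finite order.

Proof. The set `{x | ‖χ x - 1‖ < 1}` is an open neighbourhood of `1`, so it contains an open
(normal) subgroup `U` (profinite groups: `exist_openNormalSubgroup_sub_open_nhds_of_one` or a
similar name); `χ(U)` is a subgroup of the circle contained in `{‖z - 1‖ < 1}`, so it is trivial.
`U` has finite index `m > 0` (compactness) and `x ^ m ∈ U` for all `x` (`U` normal), so
`χ(x)^m = 1`. -/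
def S_FCH : Prop := ∀ (H : Type u) [Group H] [TopologicalSpace H] [IsTopologicalGroup H]
  [CompactSpace H] [T2Space H] [TotallyDisconnectedSpace H] (χ : H →* Circle), Continuous χ →
    ∃ m : ℕ, 0 < m ∧ ∀ x, χ x ^ m = 1

/-- The alternative on the rank: a torsion-free abelian group `A` is countable or there is a
homomorphism to the rational vector space with basis `ℕ` which is zero on the given finite set
and whose image contains the basis.

Proof. Let `V = ℚ ⊗ A` (or the localized module), `q : V → V/⟨F⟩`. Every element of `V` is
`(1/k) ⊗ a`, `k ≥ 1`. If `V/⟨F⟩` is finite-dimensional, then `V` is finite-dimensional, hence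
countable, and `A → V` is injective since `A` is torsion-free, so `A` is countable. (Avoiding
tensor products: choose `a_1, …, a_r ∈ A` such that every `a ∈ A` has a positive multiple in the
subgroup `S` generated by `F` and the `a_i`; the map `a ↦ (n, n a)`, where `n` is
the least positive integer with `n a ∈ S`, is injective as `A` is torsion-free, and `S` is
countable.) Otherwise `V/⟨F⟩` has a basis with an injection of `ℕ` into its index set; let `b n` be
the corresponding basis vectors, `b n = q((1/k n) ⊗ a n)` with `k n ≥ 1`; let `μ` be the linear map
`V/⟨F⟩ → (ℕ →₀ ℚ)` with `μ(b n) = (1/k n) • single n 1` and `0` on the other basis vectors, and let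
`L a = μ(q(1 ⊗ a))`: then `L (a n) = single n 1` and `L = 0` on `F`. -/
def S_RNK : Prop := ∀ (A : Type u) [AddCommGroup A], (∀ (n : ℕ) (a : A), n ≠ 0 → n • a = 0 → a = 0) →
  ∀ F : Finset A, Countable A ∨ ∃ L : A →+ (ℕ →₀ ℚ), (∀ a ∈ F, L a = 0) ∧
    ∀ n, ∃ a, L a = Finsupp.single n 1

/-- **Infinite rank.** Let `C` be a compact connected abelian group, `H` a sequentially closed
subgroup which is totally disconnected and locally essential. Then `C` has only countably many
characters.

Proof. Write `X` for the group of characters of `C`. It is torsion-free: if `χ^n = 1` then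
`χ` takes finitely many values on the connected space `C`. For `x ∉ V` there is a character with
`χ x ≠ 1` (`char_sep_mul`), so by compactness of `Vᶜ` there is a finite set `F` of characters such
that `x ∈ V` as soon as `χ x = 1` for all `χ ∈ F`. Suppose that `X` is not countable. By `S_RNK`
there is a homomorphism `L : X → (ℕ →₀ ℚ)` (additive notation) with `L(F) = 0`, `L(ψ n) = single n 1`.
Let `M = {x ∈ C | χ x = 1 for all χ with L χ = 0}`, a closed subgroup contained in `V`. It is first
countable by `S_FCT`: choose for each element `r` of the countable set `range L` a character `χ_r`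
with `L χ_r = r`; if `χ_r x = χ_r y` for all `r`, `x, y ∈ M`, then `χ (x y⁻¹) = 1` for every
character `χ`, because `χ / χ_{L χ} ∈ ker L`, so `x = y`. Hence `H' = H ∩ M`, which is
sequentially closed, is closed. So `H'` is compact, and it is totally disconnected. By `S_FCH` there
are `m n > 0` with `ψ n (x)^(m n) = 1` for all `x ∈ H'`. Let `μ : (ℕ →₀ ℚ) → ℚ` be the linear
map with `μ(single n 1) = 1 / (n! * m n)` and let `N = {x ∈ C | χ x = 1 for all χ with μ(L χ) = 0}`, a
closed subgroup with `N ⊆ M ⊆ V`. Claim: `N ∩ H = 1`. Let `x ∈ N ∩ H`, so `x ∈ H'`, and let `χ` be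
any character, `μ(L χ) = a / b` with `b > 0`. Take `n = b`, so `b ∣ n!`, and `k = a * (n! / b)`;
then `μ(L(ψ n ^ (m n * k))) = k / n! = a / b`, so `χ x = ψ n (x)^(m n * k) = 1`. As the characters
separate points, `x = 1`. By local essentiality `N = 1`, that is, the group `B` of the characters
with `μ(L χ) = 0` separates the points of `C`, so `B = ⊤` by `S_SEPD`. But `μ(L(ψ 0)) = 1/m 0 ≠ 0`:
contradiction. -/
def S_INF : Prop := ∀ (C : Type u) [CommGroup C] [TopologicalSpace C] [IsTopologicalGroup C]
  [CompactSpace C] [T2Space C] [ConnectedSpace C] (H : Subgroup C),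
    (∀ (x : ℕ → C) (k : C), (∀ n, x n ∈ H) → Tendsto x atTop (𝓝 k) → k ∈ H) →
    (∀ S : Set C, S ⊆ H → IsPreconnected S → S.Subsingleton) →
    (∃ V : Set C, IsOpen V ∧ (1 : C) ∈ V ∧ ∀ N : Subgroup C, IsClosed (N : Set C) →
      (N : Set C) ⊆ V → N ⊓ H = ⊥ → N = ⊥) →
    Countable (C →ₜ* Circle)

end Pool.Agent.Q11.LM
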